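import Pool.Agent.Work.MP_9d4f6b_lc.AG.MainB

set_option autoImplicit false

/-!
# MP_9d4f6b_lc: rational Nash equilibria of almost all three-player games

There is a decidable set D of games (encoding of S15117) such that
(1) the existence of a rational equilibrium is decidable on D;
(2) an equilibrium (x, y, z) of a game in D has only rational probabilities if and only if one of the players uses
a pure strategy;
(3) for every format l × m × n the proportion of D among the games with payoffs in {0, …, H} tends to 1, and the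
proportion of the games with a rational equilibrium tends to the probability that a game with independent uniform
payoffs in [0,1] has an equilibrium in which some player uses a pure strategy;
(4) for l, m, n ≥ 2 this limit lies strictly between 0 and 1.

Method: for supports with at least two strategies for each player the conditions of indifference are a square system
of bilinear equations. The first three moments of the number of its solutions over the field with p elements show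
that it is unsolvable modulo p with probability at least a positive constant; by the Chinese remainder theorem
almost every such system is unsolvable modulo some p, hence unsolvable over the rational numbers.
-/

namespace Pool.Agent.Results.MP_9d4f6b_lc.AlmostAllGames

open MeasureTheory Filter Topology

/-- (x, y, z) is a Nash equilibrium, with probabilities in R, of the game g = (l, m, n, list of payoffs); the
encoding is the one of the frozen statement S15117. -/
def Nash (R : Type) [Field R] [LinearOrder R] (g : ℕ × ℕ × ℕ × List ℕ) (x : Fin g.1 → R)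
    (y : Fin g.2.1 → R) (z : Fin g.2.2.1 → R) : Prop :=
  (∀ a, 0 ≤ x a) ∧ (∑ a, x a = 1) ∧
  (∀ b, 0 ≤ y b) ∧ (∑ b, y b = 1) ∧
  (∀ c, 0 ≤ z c) ∧ (∑ c, z c = 1) ∧
  (∀ a₀ : Fin g.1,
    ∑ b, ∑ c, y b * z c *
        ((g.2.2.2.getD (((0 * g.1 + a₀.val) * g.2.1 + b.val) * g.2.2.1 + c.val) 0 : ℕ) : R)
      ≤ ∑ a, ∑ b, ∑ c, x a * y b * z c *
        ((g.2.2.2.getD (((0 * g.1 + a.val) * g.2.1 + b.val) * g.2.2.1 + c.val) 0 : ℕ) : R)) ∧
  (∀ b₀ : Fin g.2.1,
    ∑ a, ∑ c, x a * z c *
        ((g.2.2.2.getD (((1 * g.1 + a.val) * g.2.1 + b₀.val) * g.2.2.1 + c.val) 0 : ℕ) : R)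
      ≤ ∑ a, ∑ b, ∑ c, x a * y b * z c *
        ((g.2.2.2.getD (((1 * g.1 + a.val) * g.2.1 + b.val) * g.2.2.1 + c.val) 0 : ℕ) : R)) ∧
  (∀ c₀ : Fin g.2.2.1,
    ∑ a, ∑ b, x a * y b *
        ((g.2.2.2.getD (((2 * g.1 + a.val) * g.2.1 + b.val) * g.2.2.1 + c₀.val) 0 : ℕ) : R)
      ≤ ∑ a, ∑ b, ∑ c, x a * y b * z c *
        ((g.2.2.2.getD (((2 * g.1 + a.val) * g.2.1 + b.val) * g.2.2.1 + c.val) 0 : ℕ) : R))

/-- The predicate of the frozen statement S15117: the game g has a Nash equilibrium with rational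
probabilities. -/
def RationalNE (g : ℕ × ℕ × ℕ × List ℕ) : Prop :=
  ∃ (x : Fin g.1 → ℚ) (y : Fin g.2.1 → ℚ) (z : Fin g.2.2.1 → ℚ), Nash ℚ g x y z

/-- The proportion of the games with property P among the games of format l × m × n with payoffs in
{0, …, H}. -/
noncomputable def proportion (l m n H : ℕ) (P : ℕ × ℕ × ℕ × List ℕ → Prop) : ℝ :=
  (Nat.card {c : Fin (3 * l * m * n) → Fin (H + 1) //
    P (l, m, n, List.ofFn fun i => (c i : ℕ))} : ℝ) / ((H : ℝ) + 1) ^ (3 * l * m * n)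

/-- (x, y, z) is a Nash equilibrium of the game of format l × m × n with the real payoffs u (i, a, b, c),
i = 0, 1, 2. -/
def RNash {l m n : ℕ} (u : Fin 3 × Fin l × Fin m × Fin n → ℝ) (x : Fin l → ℝ) (y : Fin m → ℝ)
    (z : Fin n → ℝ) : Prop :=
  (∀ a, 0 ≤ x a) ∧ (∑ a, x a = 1) ∧
  (∀ b, 0 ≤ y b) ∧ (∑ b, y b = 1) ∧
  (∀ c, 0 ≤ z c) ∧ (∑ c, z c = 1) ∧
  (∀ a₀, ∑ b, ∑ c, y b * z c * u (0, a₀, b, c) ≤ ∑ a, ∑ b, ∑ c, x a * y b * z c * u (0, a, b, c)) ∧
  (∀ b₀, ∑ a, ∑ c, x a * z c * u (1, a, b₀, c) ≤ ∑ a, ∑ b, ∑ c, x a * y b * z c * u (1, a, b, c)) ∧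
  (∀ c₀, ∑ a, ∑ b, x a * y b * u (2, a, b, c₀) ≤ ∑ a, ∑ b, ∑ c, x a * y b * z c * u (2, a, b, c))

/-- The probability that a game of format l × m × n with independent payoffs, uniform in [0,1], has an
equilibrium in which some player uses a pure strategy. -/
noncomputable def pureProb (l m n : ℕ) : ℝ :=
  volume.real {u : Fin 3 × Fin l × Fin m × Fin n → ℝ | (∀ i, 0 ≤ u i ∧ u i ≤ 1) ∧
    ∃ (x : Fin l → ℝ) (y : Fin m → ℝ) (z : Fin n → ℝ), RNash u x y z ∧
      ((∃ a, x a = 1) ∨ (∃ b, y b = 1) ∨ ∃ c, z c = 1)}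

theorem result : ∃ D : ℕ × ℕ × ℕ × List ℕ → Prop, ComputablePred D ∧
    ComputablePred (fun g => D g ∧ RationalNE g) ∧
    (∀ g, D g → ∀ (x : Fin g.1 → ℝ) (y : Fin g.2.1 → ℝ) (z : Fin g.2.2.1 → ℝ), Nash ℝ g x y z →
      (((∀ a, ∃ q : ℚ, x a = q) ∧ (∀ b, ∃ q : ℚ, y b = q) ∧ (∀ c, ∃ q : ℚ, z c = q)) ↔
        ((∃ a, x a = 1) ∨ (∃ b, y b = 1) ∨ ∃ c, z c = 1))) ∧
    (∀ l m n : ℕ, 1 ≤ l → 1 ≤ m → 1 ≤ n →
      Tendsto (fun H => proportion l m n H D) atTop (𝓝 1) ∧
      Tendsto (fun H => proportion l m n H RationalNE) atTop (𝓝 (pureProb l m n))) ∧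
    (∀ l m n : ℕ, 2 ≤ l → 2 ≤ m → 2 ≤ n → 0 < pureProb l m n ∧ pureProb l m n < 1) :=
  Pool.Agent.Work.MP_9d4f6b_lc.AG.mainB

end Pool.Agent.Results.MP_9d4f6b_lc.AlmostAllGames
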