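import Pool.Agent.Work.MP_9d4f6b_lc.Main
import Pool.Agent.Work.MP_9d4f6b_lc.H.Final
import Pool.Agent.Work.MP_9d4f6b_lc.E.Final

set_option autoImplicit false

/-!
# MP_9d4f6b_lc: rational Nash equilibria of three-player games, a dichotomy for the formats l × m × n

(1) If some player has at most two pure strategies, the existence of a rational equilibrium is decidable.
(2) For every format l × m × n with l, m, n ≥ 3, already for 3 × 3 × 3 games, the question whether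
y² = x³ + a x + b (a, b integers) has a rational solution is many-one reducible to the existence of a
rational equilibrium.
(3) If only the number K ≥ 3 of strategies of player 1 is fixed, rational points on all double covers
w² = D(x₀, …, x_(K-1)) of P^(K-1) are reduced to rational equilibria; the format of the games depends only
on K, the degree and the number of terms of D.
-/

namespace Pool.Agent.Results.MP_9d4f6b_lc.FormatDichotomy

/-- The predicate of the frozen statement S15117: the game g = (l, m, n, list of payoffs) has a Nash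
equilibrium with rational probabilities. -/
def RationalNE (g : ℕ × ℕ × ℕ × List ℕ) : Prop :=
  ∃ (x : Fin g.1 → ℚ) (y : Fin g.2.1 → ℚ) (z : Fin g.2.2.1 → ℚ),
    (∀ a, 0 ≤ x a) ∧ (∑ a, x a = 1) ∧
    (∀ b, 0 ≤ y b) ∧ (∑ b, y b = 1) ∧
    (∀ c, 0 ≤ z c) ∧ (∑ c, z c = 1) ∧
    (∀ a₀ : Fin g.1,
      ∑ b, ∑ c, y b * z c *
          ((g.2.2.2.getD (((0 * g.1 + a₀.val) * g.2.1 + b.val) * g.2.2.1 + c.val) 0 : ℕ) : ℚ)
        ≤ ∑ a, ∑ b, ∑ c, x a * y b * z c *
          ((g.2.2.2.getD (((0 * g.1 + a.val) * g.2.1 + b.val) * g.2.2.1 + c.val) 0 : ℕ) : ℚ)) ∧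
    (∀ b₀ : Fin g.2.1,
      ∑ a, ∑ c, x a * z c *
          ((g.2.2.2.getD (((1 * g.1 + a.val) * g.2.1 + b₀.val) * g.2.2.1 + c.val) 0 : ℕ) : ℚ)
        ≤ ∑ a, ∑ b, ∑ c, x a * y b * z c *
          ((g.2.2.2.getD (((1 * g.1 + a.val) * g.2.1 + b.val) * g.2.2.1 + c.val) 0 : ℕ) : ℚ)) ∧
    (∀ c₀ : Fin g.2.2.1,
      ∑ a, ∑ b, x a * y b *
          ((g.2.2.2.getD (((2 * g.1 + a.val) * g.2.1 + b.val) * g.2.2.1 + c₀.val) 0 : ℕ) : ℚ)
        ≤ ∑ a, ∑ b, ∑ c, x a * y b * z c *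
          ((g.2.2.2.getD (((2 * g.1 + a.val) * g.2.1 + b.val) * g.2.2.1 + c.val) 0 : ℕ) : ℚ))

/-- g has the format l × m × n. -/
def Format (l m n : ℕ) (g : ℕ × ℕ × ℕ × List ℕ) : Prop := g.1 = l ∧ g.2.1 = m ∧ g.2.2.1 = n

/-- y² = x³ + a x + b has a rational solution. -/
def CubicHasPoint (p : ℤ × ℤ) : Prop := ∃ x y : ℚ, y ^ 2 = x ^ 3 + p.1 * x + p.2

/-- An integral form of degree r in K variables, as a list of terms (coefficient, word of variables). -/
def IsForm {K : ℕ} (r : ℕ) (D : List (ℤ × List (Fin K))) : Prop := ∀ m ∈ D, m.2.length = r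

/-- The value of the form. -/
def value {K : ℕ} (D : List (ℤ × List (Fin K))) (x : Fin K → ℚ) : ℚ :=
  (D.map fun m => (m.1 : ℚ) * (m.2.map x).prod).sum

/-- w² = D(x) has a rational solution with x ≠ 0. -/
def CoverHasPoint {K : ℕ} (D : List (ℤ × List (Fin K))) : Prop :=
  ∃ (x : Fin K → ℚ) (w : ℚ), x ≠ 0 ∧ w ^ 2 = value D x

theorem result :
    ComputablePred (fun g : ℕ × ℕ × ℕ × List ℕ =>
      (g.1 ≤ 2 ∨ g.2.1 ≤ 2 ∨ g.2.2.1 ≤ 2) ∧ RationalNE g) ∧
    (∀ l m n : ℕ, 3 ≤ l → 3 ≤ m → 3 ≤ n →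
      ManyOneReducible CubicHasPoint (fun g : ℕ × ℕ × ℕ × List ℕ => Format l m n g ∧ RationalNE g)) ∧
    (∀ K : ℕ, 3 ≤ K → ∃ f : Fin K → ℕ × List (ℤ × List (Fin K)) → ℕ × ℕ × ℕ × List ℕ,
      (∀ j, Primrec (f j)) ∧
      (∀ j d D, Format K (4 + 4 * d * D.length) (K + 4 + 8 * d * D.length) (f j (d, D))) ∧
      ∀ (d : ℕ) (D : List (ℤ × List (Fin K))), 0 < d → IsForm (2 * d) D →
        (CoverHasPoint D ↔ ∃ j, RationalNE (f j (d, D)))) := by
  refine ⟨Pool.Agent.Work.MP_9d4f6b_lc.main, fun l m n hl hm hn => ?_, fun K hK => ?_⟩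
  · refine ⟨Pool.Agent.Work.MP_9d4f6b_lc.E.gameE l m n,
      (Pool.Agent.Work.MP_9d4f6b_lc.E.prim_gameE l m n).to_comp, fun p => ?_⟩
    constructor
    · intro h
      exact ⟨⟨rfl, rfl, rfl⟩, (Pool.Agent.Work.MP_9d4f6b_lc.E.sol_iff p.1 p.2 l m n hl hm hn).1 h⟩
    · intro h
      exact (Pool.Agent.Work.MP_9d4f6b_lc.E.sol_iff p.1 p.2 l m n hl hm hn).2 h.2
  · refine ⟨fun j p => Pool.Agent.Work.MP_9d4f6b_lc.H.gameN j (2 * p.1) p.2,
      Pool.Agent.Work.MP_9d4f6b_lc.H.prim_game, fun j d D => ⟨rfl, ?_, ?_⟩,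
      fun d D hd hD => Pool.Agent.Work.MP_9d4f6b_lc.H.pt_iff hK d hd D hD⟩
    · change 2 + (2 + (D.length * (2 * d)) * 2) = _
      ring
    · change 2 + (2 + (K + (D.length * (2 * d)) * 4)) = _
      ring

end Pool.Agent.Results.MP_9d4f6b_lc.FormatDichotomy
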